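import Pool.Agent.H586.AF.C

/-! # Task AF-E3: the expansions in matrix form -/

set_option autoImplicit false

open MeasureTheory Matrix Finset Filter Topology
open scoped Quaternion

namespace Pool.Agent.H763.AF

open Pool.Agent.H586.AF

noncomputable section

theorem hd {n : Type} [Fintype n] (b : n → ℂ) (M : ℝ → n → n → ℂ) (M' : n → n → ℂ) (θ : ℝ)
    (h : ∀ i j, HasDerivAt (fun θ => M θ i j) (M' i j) θ) :
    HasDerivAt (fun θ => (1 / 2 : ℝ) * (∑ i, ∑ j, star (b i) * M θ i j * b j).re)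
      ((1 / 2) * (∑ i, ∑ j, star (b i) * M' i j * b j).re) θ := by
  have h1 : HasDerivAt (fun θ => ∑ i, ∑ j, star (b i) * M θ i j * b j)
      (∑ i, ∑ j, star (b i) * M' i j * b j) θ :=
    HasDerivAt.fun_sum fun i _ => HasDerivAt.fun_sum fun j _ =>
      ((h i j).const_mul (star (b i))).mul_const (b j)
  have h2 := (Complex.reCLM.hasFDerivAt).comp_hasDerivAt θ h1
  exact h2.const_mul (1 / 2 : ℝ)

theorem dd {f : ℝ → ℂ} (hf : ContDiff ℝ 2 f) :
    Differentiable ℝ f ∧ Differentiable ℝ (deriv f) := by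
  have h : ContDiff ℝ (1 + 1) f := by
    have e : (1 + 1 : WithTop ℕ∞) = 2 := by norm_num
    rw [e]
    exact hf
  obtain ⟨h1, -, h2⟩ := contDiff_succ_iff_deriv.1 h
  exact ⟨h1, h2.differentiable (by norm_num)⟩

section

variable {n : Type} [Fintype n] (b : n → ℂ) (M : ℝ → Matrix n n ℂ)
  (hM : ∀ i j, ContDiff ℝ 2 fun θ => M θ i j)

include hM

theorem deriv1 : (deriv fun θ => (1 / 2 : ℝ) * hf b (M θ) b) =
    fun θ => (1 / 2 : ℝ) * (∑ i, ∑ j, star (b i) * deriv (fun θ => M θ i j) θ * b j).re := by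
  funext θ
  exact (hd b (fun θ => M θ) (fun i j => deriv (fun θ => M θ i j) θ) θ
    fun i j => ((dd (hM i j)).1 θ).hasDerivAt).deriv

theorem deriv2 : deriv (deriv fun θ => (1 / 2 : ℝ) * hf b (M θ) b) 0 =
    (1 / 2 : ℝ) * (∑ i, ∑ j, star (b i) * deriv (deriv fun θ => M θ i j) 0 * b j).re := by
  rw [deriv1 b M hM]
  exact (hd b (fun θ i j => deriv (fun θ => M θ i j) θ)
    (fun i j => deriv (deriv fun θ => M θ i j) 0) 0
    fun i j => ((dd (hM i j)).2 0).hasDerivAt).deriv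

end

theorem ch_eq (q : ℍ[ℝ]) : ch q = (ph 0 q : ℂ) + (ph 1 q : ℂ) * Complex.I := by
  unfold ch ph
  simp only [if_true, Fin.isValue, one_ne_zero, if_false]
  push_cast
  ring

theorem term1 (f g f' g' m : ℝ) : (star ((f : ℂ) + (g : ℂ) * Complex.I) * (Complex.I * (m : ℂ)) *
    ((f' : ℂ) + (g' : ℂ) * Complex.I)).re = -(m * f * g') + m * g * f' := by
  simp [Complex.mul_re, Complex.mul_im]
  ring

theorem term2 (f g f' g' m : ℝ) : (star ((f : ℂ) + (g : ℂ) * Complex.I) * (m : ℂ) *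
    ((f' : ℂ) + (g' : ℂ) * Complex.I)).re = m * (f * f' + g * g') := by
  simp [Complex.mul_re, Complex.mul_im]
  ring

theorem te3 (hEX : S_EX) (hQF : S_QF) (hHR : S_HR) (hAI : S_AI) (hLM : S_LM) : S_E3 := by
  obtain ⟨C, hX⟩ := hEX
  obtain ⟨C', hX'⟩ := hHR
  refine ⟨C, fun L hL => ?_⟩
  obtain ⟨e1, e2, m1, m2, hd1, hex⟩ := hX L hL
  obtain ⟨-, -, hBs, -, hB, hCC, -⟩ := hX' L hL
  obtain ⟨-, -, -, hsm, -⟩ := hLM L hL
  obtain ⟨-, -, -, -, -, hR⟩ := hAI L hL
  refine ⟨e1, e2, m1, m2, hd1, fun σ => ?_⟩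
  obtain ⟨h1, h2⟩ := hex σ
  have hq : (fun θ => qf L θ fun l => ch (σ l : SU)) =
      fun θ => (1 / 2 : ℝ) * hf (fun l => ch (σ l : SU)) (hC L θ) (fun l => ch (σ l : SU)) := by
    funext θ
    exact hQF L hL θ _
  have hBs' : ∀ x y, mB L y x = -mB L x y := by
    intro x y
    have := congrFun (congrFun hBs x) y
    exact this
  have E1 : deriv (fun θ => qf L θ fun l => ch (σ l : SU)) 0 =
      -∑ x, ∑ y, mB L x y * ph 0 (σ x : SU) * ph 1 (σ y : SU) := by
    rw [hq, deriv1 _ _ hsm]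
    show (1 / 2 : ℝ) * (∑ i, ∑ j, star (ch (σ i : SU)) * deriv (fun θ => hC L θ i j) 0 *
      ch (σ j : SU)).re = _
    have e : (∑ i, ∑ j, star (ch (σ i : SU)) * deriv (fun θ => hC L θ i j) 0 *
        ch (σ j : SU)).re = ∑ i, ∑ j, (-(mB L i j * ph 0 (σ i : SU) * ph 1 (σ j : SU)) +
          mB L i j * ph 1 (σ i : SU) * ph 0 (σ j : SU)) := by
      rw [Complex.re_sum]
      refine Finset.sum_congr rfl fun i _ => ?_
      rw [Complex.re_sum]
      refine Finset.sum_congr rfl fun j _ => ?_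
      rw [hB, ch_eq, ch_eq, term1]
    have e' : ∑ i, ∑ j, mB L i j * ph 1 (σ i : SU) * ph 0 (σ j : SU) =
        -∑ x, ∑ y, mB L x y * ph 0 (σ x : SU) * ph 1 (σ y : SU) := by
      rw [Finset.sum_comm, ← Finset.sum_neg_distrib]
      refine Finset.sum_congr rfl fun i _ => ?_
      rw [← Finset.sum_neg_distrib]
      refine Finset.sum_congr rfl fun j _ => ?_
      rw [hBs' i j]
      ring
    rw [e]
    simp only [Finset.sum_add_distrib, Finset.sum_neg_distrib]
    rw [e']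
    ring
  have E2 : deriv (deriv fun θ => qf L θ fun l => ch (σ l : SU)) 0 =
      (1 / 2) * ∑ x, ∑ y, mC L x y * (ph 0 (σ x : SU) * ph 0 (σ y : SU) +
        ph 1 (σ x : SU) * ph 1 (σ y : SU)) := by
    rw [hq, deriv2 _ _ hsm]
    congr 1
    rw [Complex.re_sum]
    refine Finset.sum_congr rfl fun i _ => ?_
    rw [Complex.re_sum]
    refine Finset.sum_congr rfl fun j _ => ?_
    rw [hCC, ch_eq, ch_eq, term2]
  rw [E1, sub_neg_eq_add] at h1
  rw [E2, hR] at h2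
  exact ⟨h1, h2⟩

end

end Pool.Agent.H763.AF
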